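import Pool.Agent.H108.QS.Asm
import Pool.Agent.H108.QS.CV
import Pool.Agent.H108.QS.IU

/-!
# q-Steiner systems and subspace designs: the dimension grows like a power with exponent linear in t

Let `S_q(t,k,n)` be a q-Steiner system with `t < k < n`, and put `K = k - t + 1`, `N = n - t + 1`. The
classical necessary conditions say that `(q^K - 1) ⋯ (q^(K+j) - 1)` divides
`(q^N - 1) ⋯ (q^(N+j) - 1)` for all `j < t` (this is the divisibility of the Gaussian binomials
`[k-i, t-i]`, `[n-i, t-i]` for `i = t - 1 - j`).

1. The conditions say that for every `j < t` one of the numbers `N, N + 1, …, N + j` is divisible by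
   `K + j` (`K ≥ 7`; in particular they do not depend on `q`): a prime modulo which `q` has order `K + j`
   (Zsigmondy) divides some `q^(N+a) - 1`. For subspace designs with `lam > 1` the same is true if all
   prime factors of `lam` are at most `K`, because such primes are larger than `K + j`.
2. Let `m_j = (N + a_j) / (K + j)`, `0 ≤ a_j ≤ j`. If `N` is smaller than `K ^ (e+1) / (2 e!)` and `K` is
   large, the `e`-th differences of the integers `m_j` are smaller than one, so they vanish: `m_j` and
   `a_j = (K + j) m_j - N` are values of polynomials of degree less than `e`, at most `e`. An integer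
   valued polynomial `A` of degree at most `e < p` with `0 ≤ A(j) ≤ j` for `j < 2 p` (`p` a prime) is `0` or
   the identity: `A(j + p) - A(j)` is `0` or `p` for `j < p`, and its `(p-1)`-st difference vanishes, so that
   it is constant. Hence `N = 0` or `N = K`.
-/

set_option autoImplicit false

namespace Pool.Agent.Results.MP_c2f909_co.ExponentLinearInStrength

/-- The subspaces `B i` (`i : ι`) of `V` are the blocks of a subspace design: all have dimension `k`, and
every subspace of dimension `t` is contained in exactly `lam` of them. Repeated blocks are allowed. For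
`lam = 1` this is a q-Steiner system. -/
structure IsSubspaceDesign (F V ι : Type) [Field F] [AddCommGroup V] [Module F V] (t k lam : ℕ)
    (B : ι → Submodule F V) : Prop where
  dim : ∀ i, Module.finrank F (B i) = k
  cover : ∀ T : Submodule F V, Module.finrank F T = t → Nat.card {i : ι // T ≤ B i} = lam

/-- For every `j < t` one of the numbers `N, N + 1, …, N + j` is divisible by `K + j`. -/
def Adm (K N t : ℕ) : Prop := ∀ j < t, ∃ a ≤ j, (K + j) ∣ (N + a)

theorem explicit {K N t : ℕ} (hKN : K < N) (h : 7 ≤ K → Adm K N t) (e p : ℕ) (hp : p.Prime)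
    (hep : e < p) (hpt : 2 * p ≤ t) (hK : 2 ^ (e + 2) * p ≤ K) :
    K ^ (e + 1) ≤ 2 * e.factorial * N := by
  rcases Nat.eq_zero_or_pos e with rfl | he
  · simp only [zero_add, pow_one, Nat.factorial_zero, mul_one]
    omega
  · have h8 : 7 ≤ K := by
      refine le_trans ?_ hK
      calc 7 ≤ 2 ^ (1 + 2) * 1 := by norm_num
        _ ≤ 2 ^ (e + 2) * p := Nat.mul_le_mul (Nat.pow_le_pow_right (by norm_num) (by omega)) hp.pos
    exact H108.QS.arith K N e p he hp hep hK hKN (fun j hj => h h8 j (by omega))

/-- **(1)** For the subspace designs with parameters `t-(n,k,lam)_q`, `t < k < n`, such that all prime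
factors of `lam` are at most `K = k - t + 1` (for instance `lam = 1`), and `N = n - t + 1`: the condition
`Adm K N t` holds (if `K ≥ 7`); if `p` is a prime, `e < p`, `2 p ≤ t` and `2 ^ (e+2) p ≤ K`, then
`K ^ (e+1) ≤ 2 e! N`; and always `N ≥ K ^ (min (t, log K) / 8)`.
**(2)** For `q ≥ 2` and `K ≥ 7` the classical divisibility conditions are equivalent to `Adm K N t`.
**(3)** They hold for `N = K (K + 1) ⋯ (K + t - 1)`. -/
theorem result :
    (∀ (F V ι : Type) [Field F] [Finite F] [AddCommGroup V] [Module F V] [FiniteDimensional F V]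
      [Finite ι] (t k n lam K N : ℕ) (B : ι → Submodule F V),
      Module.finrank F V = n → IsSubspaceDesign F V ι t k lam B → t < k → k < n →
      (∀ p : ℕ, p.Prime → p ∣ lam → p ≤ K) → K + t = k + 1 → N + t = n + 1 →
      (7 ≤ K → Adm K N t) ∧
      (∀ e p : ℕ, p.Prime → e < p → 2 * p ≤ t → 2 ^ (e + 2) * p ≤ K →
        K ^ (e + 1) ≤ 2 * e.factorial * N) ∧
      (K : ℝ) ^ (min (t : ℝ) (Real.log K) / 8) ≤ N) ∧
    (∀ q K N t : ℕ, 2 ≤ q → 7 ≤ K → 1 ≤ N →
      ((∀ j < t, (∏ s ∈ Finset.range (j + 1), (q ^ (K + s) - 1)) ∣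
          ∏ s ∈ Finset.range (j + 1), (q ^ (N + s) - 1)) ↔ Adm K N t)) ∧
    (∀ K t : ℕ, Adm K (∏ i ∈ Finset.range t, (K + i)) t) := by
  refine ⟨?_, ?_, ?_⟩
  · intro F V ι _ _ _ _ _ _ t k n lam K N B hn hB htk hkn hlam hK hN
    have hK' : K = k - t + 1 := by omega
    have hN' : N = n - t + 1 := by omega
    subst hK' hN' hn
    have h1 : 7 ≤ k - t + 1 → Adm (k - t + 1) (Module.finrank F V - t + 1) t := by
      intro h7 j hj
      exact H108.QS.residues F V ι t k lam B ⟨hB.dim, hB.cover⟩ htk hkn.le hlam j hj (by omega)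
    have h2 := explicit (K := k - t + 1) (N := Module.finrank F V - t + 1) (by omega) h1
    refine ⟨h1, h2, ?_⟩
    exact H108.QS.t_IU (k - t + 1) (Module.finrank F V - t + 1) t (by omega) (by omega)
      (fun e p _ hp hep hpt hK => h2 e p hp hep hpt hK)
  · intro q K N t hq hK hN
    refine ⟨fun h => H108.QS.residues_of_dvd q K N t hq hK h, fun h j hj => ?_⟩
    have h1 := H108.QS.t_CV (q : ℤ) K N t (by omega) hN h j hj
    have h2 : ∀ M : ℕ, (∏ s ∈ Finset.range (j + 1), ((q : ℤ) ^ (M + s) - 1)) =
        ((∏ s ∈ Finset.range (j + 1), (q ^ (M + s) - 1) : ℕ) : ℤ) := by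
      intro M
      rw [Nat.cast_prod]
      refine Finset.prod_congr rfl fun s _ => ?_
      rw [Nat.cast_sub (Nat.one_le_pow _ _ (by omega)), Nat.cast_pow, Nat.cast_one]
    rw [h2, h2] at h1
    exact_mod_cast h1
  · intro K t j hj
    exact ⟨0, Nat.zero_le _, by
      rw [add_zero]
      exact Finset.dvd_prod_of_mem (fun i => K + i) (Finset.mem_range.2 hj)⟩

end Pool.Agent.Results.MP_c2f909_co.ExponentLinearInStrength
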